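import Pool.Agent.PFD.StmtsD2

/-!
# Squad PFD, part D2, row UNG (helper49)
-/

set_option autoImplicit false

namespace Pool.Agent.PFD.D2.H49

open Pool.Agent.PFD.D2

theorem ung : UngStmt := by
  intro R F M _ _ c _ _ _ u hu
  have hκ : c.κ c.π = 0 := (c.ker c.π).2 ⟨1, (mul_one _).symm⟩
  have hJ : Ideal.span {c.π} ≤ Ideal.jacobson (⊥ : Ideal R) := by
    rw [Ideal.span_le, Set.singleton_subset_iff, SetLike.mem_coe, Ideal.mem_jacobson_bot]
    intro y
    apply c.loc
    rw [map_add, map_mul, hκ, zero_mul, zero_add, map_one]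
    exact one_ne_zero
  have hsurj : Function.Surjective u := by
    rw [← LinearMap.range_eq_top]
    refine top_le_iff.1 (Submodule.le_of_le_smul_of_le_jacobson_bot
      (I := Ideal.span {c.π}) Module.Finite.fg_top hJ ?_)
    intro x _
    obtain ⟨y, hy⟩ := hu x
    have e : x = u x + -(c.π • y) := by
      rw [← hy]
      abel
    rw [e]
    exact Submodule.add_mem_sup ⟨x, rfl⟩ (Submodule.neg_mem _
      (Submodule.smul_mem_smul (Ideal.mem_span_singleton_self _) Submodule.mem_top))
  exact ⟨OrzechProperty.injective_of_surjective_endomorphism u hsurj, hsurj⟩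

end Pool.Agent.PFD.D2.H49
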