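import Pool.Agent.PFD.StmtsD2b

/-!
# Squad PFD, part D2b, rows FPF, INB, LFX (helper49)
-/

set_option autoImplicit false

open scoped BigOperators

namespace Pool.Agent.PFD.D2b.H49

open MulOpposite
open Pool.Agent.PFC.B1 (BiM FS)
open Pool.Agent.PFD.D2 Pool.Agent.PFD.D2b

/-- FPF: frames give the lifting of fixed vectors. -/
theorem fpf : FpfStmt := by
  intro R G N T _ _ _ _ _ _ ρ b c p hfr S n hn
  classical
  let q : T → MulAction.orbitRel.Quotient S T := fun t => Quotient.mk'' t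
  let r : T → T := fun t => (q t).out
  have hr : ∀ t, ∃ s : S, s • t = r t := by
    intro t
    have h1 : MulAction.orbitRel S T (r t) t := Quotient.eq''.1 (Quotient.out_eq' (q t))
    have h2 : r t ∈ MulAction.orbit S t := (MulAction.orbitRel_apply).1 h1
    exact h2
  have hrs : ∀ (s : S) (t : T), r (s • t) = r t := by
    intro s t
    have h1 : q (s • t) = q t := Quotient.eq''.2 (MulAction.orbitRel_apply.2 ⟨s, rfl⟩)
    show (q (s • t)).out = (q t).out
    rw [h1]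
  have hd : ∀ (s : S) (t : T), ∃ x : R, c ((s : G) • t) n - c t n = p * x := by
    intro s t
    obtain ⟨x, hx⟩ := hn s s.2
    refine ⟨- c ((s : G) • t) x, ?_⟩
    have h1 := hfr.2.1 (s : G) t n
    rw [← h1, ← map_sub, ← neg_sub, hx, map_neg, map_smul, smul_eq_mul, mul_neg]
  have hd' : ∀ t : T, ∃ x : R, c (r t) n - c t n = p * x := by
    intro t
    obtain ⟨s, hs⟩ := hr t
    obtain ⟨x, hx⟩ := hd s t
    refine ⟨x, ?_⟩
    rw [← hs]
    exact hx
  choose x hx using hd'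
  refine ⟨∑ t, c (r t) n • b t, ?_, ∑ t, x t • b t, ?_⟩
  · intro s hs
    rw [map_sum]
    refine Fintype.sum_equiv (MulAction.toPerm s) _ _ ?_
    intro t
    rw [map_smul, ← hfr.1]
    show c (r t) n • b (s • t) = c (r (s • t)) n • b (s • t)
    have := hrs ⟨s, hs⟩ t
    have h2 : r (s • t) = r t := this
    rw [h2]
  · have h1 : ∑ t, c (r t) n • b t - ∑ t, c t n • b t = p • ∑ t, x t • b t := by
      rw [← Finset.sum_sub_distrib, Finset.smul_sum]
      refine Finset.sum_congr rfl ?_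
      intro t _
      rw [← sub_smul, hx, mul_smul]
    rw [hfr.2.2] at h1
    exact h1

section

variable {R Γ W I Ω N : Type} [CommRing R] [Ring Γ] [Algebra R Γ] [CommGroup W] [Fintype W]
  [Fintype I] [Fintype Ω] [MulAction W Ω] [AddCommGroup N] [Module R N]

/-- Left linearity. -/
theorem left_lin (D : WFS R Γ W I) (BX : BiM R Γ (I × Ω → Γ)) (hX : IsX D Ω BX)
    (BN : BiM R Γ N) (F : Ω → Γ →ₗ[R] N)
    (hF : ∀ w ω x, F (w • ω) (D.om w * x) = BN.lm (D.om w) (F ω x)) (γ : Γ)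
    (f : I × Ω → Γ) :
    ∑ j, ∑ ω, BN.lm (D.cf j) (F ω (BX.lm γ f (j, ω))) =
      BN.lm γ (∑ i, ∑ ω, BN.lm (D.cf i) (F ω (f (i, ω)))) := by
  have e1 : ∀ j ω, BN.lm (D.cf j) (F ω (BX.lm γ f (j, ω))) =
      ∑ i, ∑ w, D.lam (D.om w⁻¹ * D.cf' j * γ * D.cf i) •
        BN.lm (D.cf j * D.om w) (F (w⁻¹ • ω) (f (i, w⁻¹ • ω))) := by
    intro j ω
    rw [hX.1, map_sum, map_sum]
    refine Finset.sum_congr rfl (fun i _ => ?_)
    rw [map_sum, map_sum]
    refine Finset.sum_congr rfl (fun w _ => ?_)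
    rw [map_smul, map_smul]
    have h1 := hF w (w⁻¹ • ω) (f (i, w⁻¹ • ω))
    rw [smul_inv_smul] at h1
    rw [h1, map_mul BN.lm, Module.End.mul_apply]
  have e2 : ∀ j, ∑ ω, ∑ i, ∑ w, D.lam (D.om w⁻¹ * D.cf' j * γ * D.cf i) •
        BN.lm (D.cf j * D.om w) (F (w⁻¹ • ω) (f (i, w⁻¹ • ω))) =
      ∑ i, ∑ ω, ∑ w, D.lam (D.om w⁻¹ * D.cf' j * γ * D.cf i) •
        BN.lm (D.cf j * D.om w) (F ω (f (i, ω))) := by
    intro j
    rw [Finset.sum_comm]
    refine Finset.sum_congr rfl (fun i _ => ?_)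
    rw [Finset.sum_comm]
    rw [Finset.sum_comm (s := (Finset.univ : Finset Ω))]
    refine Finset.sum_congr rfl (fun w _ => ?_)
    exact Fintype.sum_equiv (MulAction.toPerm (w⁻¹ : W)) _ _ (fun ω => rfl)
  calc ∑ j, ∑ ω, BN.lm (D.cf j) (F ω (BX.lm γ f (j, ω)))
      = ∑ j, ∑ ω, ∑ i, ∑ w, D.lam (D.om w⁻¹ * D.cf' j * γ * D.cf i) •
        BN.lm (D.cf j * D.om w) (F (w⁻¹ • ω) (f (i, w⁻¹ • ω))) :=
        Finset.sum_congr rfl (fun j _ => Finset.sum_congr rfl (fun ω _ => e1 j ω))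
    _ = ∑ j, ∑ i, ∑ ω, ∑ w, D.lam (D.om w⁻¹ * D.cf' j * γ * D.cf i) •
        BN.lm (D.cf j * D.om w) (F ω (f (i, ω))) :=
        Finset.sum_congr rfl (fun j _ => e2 j)
    _ = ∑ i, ∑ ω, ∑ j, ∑ w, D.lam (D.om w⁻¹ * D.cf' j * γ * D.cf i) •
        BN.lm (D.cf j * D.om w) (F ω (f (i, ω))) := by
        rw [Finset.sum_comm]
        refine Finset.sum_congr rfl (fun i _ => ?_)
        rw [Finset.sum_comm]
    _ = BN.lm γ (∑ i, ∑ ω, BN.lm (D.cf i) (F ω (f (i, ω)))) := by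
        rw [map_sum]
        refine Finset.sum_congr rfl (fun i _ => ?_)
        rw [map_sum]
        refine Finset.sum_congr rfl (fun ω _ => ?_)
        rw [← Module.End.mul_apply, ← map_mul]
        have h1 := congrArg (fun y => BN.lm y (F ω (f (i, ω)))) (D.h1 (γ * D.cf i))
        simp only [map_sum, LinearMap.sum_apply, map_smul, LinearMap.smul_apply] at h1
        rw [← h1]
        refine Finset.sum_congr rfl (fun j _ => Finset.sum_congr rfl (fun w _ => ?_))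
        rw [← mul_assoc]

/-- Balancedness. -/
theorem bal_lin (D : WFS R Γ W I) (BX : BiM R Γ (I × Ω → Γ)) (hX : IsX D Ω BX)
    (BN : BiM R Γ N) (F : Ω → Γ →ₗ[R] N)
    (hF : ∀ w ω x, BN.rm (op (D.om w)) (F (w • ω) x) = F ω (x * D.om w)) (γ x : Γ)
    (f : I × Ω → Γ) :
    ∑ j, ∑ ω, BN.rm (op (BX.lm γ f (j, ω))) (F ω (x * D.cf j)) =
      ∑ i, ∑ ω, BN.rm (op (f (i, ω))) (F ω (x * γ * D.cf i)) := by
  have e1 : ∀ j ω, BN.rm (op (BX.lm γ f (j, ω))) (F ω (x * D.cf j)) =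
      ∑ i, ∑ w, D.lam (D.om w⁻¹ * D.cf' j * γ * D.cf i) •
        BN.rm (op (f (i, w⁻¹ • ω))) (F (w⁻¹ • ω) (x * (D.cf j * D.om w))) := by
    intro j ω
    rw [hX.1, Finset.op_sum, map_sum, LinearMap.sum_apply]
    refine Finset.sum_congr rfl (fun i _ => ?_)
    rw [Finset.op_sum, map_sum, LinearMap.sum_apply]
    refine Finset.sum_congr rfl (fun w _ => ?_)
    rw [op_smul, map_smul, LinearMap.smul_apply, op_mul, map_mul BN.rm, Module.End.mul_apply]
    have h1 := hF w (w⁻¹ • ω) (x * D.cf j)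
    rw [smul_inv_smul] at h1
    rw [h1, mul_assoc x]
  have e2 : ∀ j, ∑ ω, ∑ i, ∑ w, D.lam (D.om w⁻¹ * D.cf' j * γ * D.cf i) •
        BN.rm (op (f (i, w⁻¹ • ω))) (F (w⁻¹ • ω) (x * (D.cf j * D.om w))) =
      ∑ i, ∑ ω, ∑ w, D.lam (D.om w⁻¹ * D.cf' j * γ * D.cf i) •
        BN.rm (op (f (i, ω))) (F ω (x * (D.cf j * D.om w))) := by
    intro j
    rw [Finset.sum_comm]
    refine Finset.sum_congr rfl (fun i _ => ?_)
    rw [Finset.sum_comm]
    rw [Finset.sum_comm (s := (Finset.univ : Finset Ω))]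
    refine Finset.sum_congr rfl (fun w _ => ?_)
    exact Fintype.sum_equiv (MulAction.toPerm (w⁻¹ : W)) _ _ (fun ω => rfl)
  calc ∑ j, ∑ ω, BN.rm (op (BX.lm γ f (j, ω))) (F ω (x * D.cf j))
      = ∑ j, ∑ ω, ∑ i, ∑ w, D.lam (D.om w⁻¹ * D.cf' j * γ * D.cf i) •
        BN.rm (op (f (i, w⁻¹ • ω))) (F (w⁻¹ • ω) (x * (D.cf j * D.om w))) :=
        Finset.sum_congr rfl (fun j _ => Finset.sum_congr rfl (fun ω _ => e1 j ω))
    _ = ∑ j, ∑ i, ∑ ω, ∑ w, D.lam (D.om w⁻¹ * D.cf' j * γ * D.cf i) •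
        BN.rm (op (f (i, ω))) (F ω (x * (D.cf j * D.om w))) :=
        Finset.sum_congr rfl (fun j _ => e2 j)
    _ = ∑ i, ∑ ω, ∑ j, ∑ w, D.lam (D.om w⁻¹ * D.cf' j * γ * D.cf i) •
        BN.rm (op (f (i, ω))) (F ω (x * (D.cf j * D.om w))) := by
        rw [Finset.sum_comm]
        refine Finset.sum_congr rfl (fun i _ => ?_)
        rw [Finset.sum_comm]
    _ = ∑ i, ∑ ω, BN.rm (op (f (i, ω))) (F ω (x * γ * D.cf i)) := by
        refine Finset.sum_congr rfl (fun i _ => ?_)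
        refine Finset.sum_congr rfl (fun ω _ => ?_)
        have h1 := congrArg (fun y => BN.rm (op (f (i, ω))) (F ω (x * y))) (D.h1 (γ * D.cf i))
        simp only [Finset.mul_sum, map_sum, mul_smul_comm, map_smul] at h1
        rw [mul_assoc x, ← h1]
        refine Finset.sum_congr rfl (fun j _ => Finset.sum_congr rfl (fun w _ => ?_))
        rw [← mul_assoc (D.om w⁻¹ * D.cf' j)]

end

/-- INB: the balanced bilinear map given by an equivariant family. -/
theorem inb : InbStmt := by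
  intro R Γ W I Ω N _ _ _ _ _ _ _ _ D BX hX _ _ BN μ hμ
  have hl : ∀ w ω ω' x, μ (w • ω) ω' (D.om w * x) = BN.lm (D.om w) (μ ω ω' x) := by
    intro w ω ω' x
    have h1 := hμ w 1 ω ω' x
    rw [one_smul, inv_one, map_one, mul_one] at h1
    rw [h1]
    show BN.lm (D.om w) (BN.rm (op (D.om (1 : W)⁻¹)) (μ ω ω' x)) = _
    rw [inv_one, map_one, op_one, map_one]
    rfl
  have hr : ∀ w ω ω' x, BN.rm (op (D.om w)) (μ ω (w • ω') x) = μ ω ω' (x * D.om w) := by
    intro w ω ω' x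
    have h1 := hμ 1 w⁻¹ ω (w • ω') x
    rw [one_smul, inv_smul_smul, inv_inv, map_one, one_mul] at h1
    rw [h1]
    show _ = BN.lm (D.om (1 : W)) (BN.rm (op (D.om (w⁻¹)⁻¹)) (μ ω (w • ω') x))
    rw [inv_inv, map_one, map_one]
    rfl
  have hlr : ∀ a b z, BN.lm a (BN.rm b z) = BN.rm b (BN.lm a z) := BN.comm
  let F : (I × Ω → Γ) → Ω → (Γ →ₗ[R] N) := fun f' ω =>
    { toFun := fun x => ∑ i', ∑ ω', BN.rm (op (f' (i', ω'))) (μ ω ω' (x * D.cf i'))
      map_add' := fun x y => by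
        simp only [add_mul, map_add, Finset.sum_add_distrib]
      map_smul' := fun r x => by
        simp only [smul_mul_assoc, map_smul, Finset.smul_sum, RingHom.id_apply] }
  have hFdef : ∀ f' ω x, F f' ω x =
      ∑ i', ∑ ω', BN.rm (op (f' (i', ω'))) (μ ω ω' (x * D.cf i')) := fun _ _ _ => rfl
  have hFadd : ∀ f' g' ω x, F (f' + g') ω x = F f' ω x + F g' ω x := by
    intro f' g' ω x
    simp only [hFdef, Pi.add_apply, op_add, map_add, LinearMap.add_apply,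
      Finset.sum_add_distrib]
  have hFsmul : ∀ (r : R) f' ω x, F (r • f') ω x = r • F f' ω x := by
    intro r f' ω x
    simp only [hFdef, Pi.smul_apply, op_smul, map_smul, LinearMap.smul_apply,
      Finset.smul_sum]
  have hFeq : ∀ f' w ω x, F f' (w • ω) (D.om w * x) = BN.lm (D.om w) (F f' ω x) := by
    intro f' w ω x
    simp only [hFdef, map_sum]
    refine Finset.sum_congr rfl (fun i' _ => Finset.sum_congr rfl (fun ω' _ => ?_))
    rw [mul_assoc, hl, hlr]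
  have hFbal : ∀ f' γ ω x, F (BX.lm γ f') ω x = F f' ω (x * γ) := by
    intro f' γ ω x
    rw [hFdef, hFdef]
    exact bal_lin D BX hX BN (μ ω) (fun w ω' y => hr w ω ω' y) γ x f'
  have hFr : ∀ f' γ ω x, F (BX.rm (op γ) f') ω x = BN.rm (op γ) (F f' ω x) := by
    intro f' γ ω x
    simp only [hFdef, map_sum]
    refine Finset.sum_congr rfl (fun i' _ => Finset.sum_congr rfl (fun ω' _ => ?_))
    rw [hX.2, op_mul, map_mul, Module.End.mul_apply]
  let β : (I × Ω → Γ) →ₗ[R] (I × Ω → Γ) →ₗ[R] N := LinearMap.mk₂ R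
    (fun f f' => ∑ i, ∑ ω, BN.lm (D.cf i) (F f' ω (f (i, ω))))
    (fun f g f' => by
      simp only [Pi.add_apply, map_add, Finset.sum_add_distrib])
    (fun r f f' => by
      simp only [Pi.smul_apply, map_smul, Finset.smul_sum])
    (fun f f' g' => by
      simp only [hFadd, map_add, Finset.sum_add_distrib])
    (fun r f f' => by
      simp only [hFsmul, map_smul, Finset.smul_sum])
  have hβ : ∀ f f', β f f' = ∑ i, ∑ ω, BN.lm (D.cf i) (F f' ω (f (i, ω))) := fun _ _ => rfl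
  refine ⟨β, ⟨?_, ?_, ?_⟩, ?_⟩
  · intro γ x y
    rw [hβ, hβ]
    exact left_lin D BX hX BN (F y) (hFeq y) γ x
  · intro γ x y
    rw [hβ, hβ]
    refine Finset.sum_congr rfl (fun i _ => Finset.sum_congr rfl (fun ω _ => ?_))
    rw [hX.2, hFbal]
  · intro γ x y
    rw [hβ, hβ, map_sum]
    refine Finset.sum_congr rfl (fun i _ => ?_)
    rw [map_sum]
    refine Finset.sum_congr rfl (fun ω _ => ?_)
    induction γ using MulOpposite.rec' with
    | _ γ => rw [hFr, hlr]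
  · intro f f'
    rw [hβ]
    refine Finset.sum_congr rfl (fun i _ => Finset.sum_congr rfl (fun ω _ => ?_))
    rw [hFdef, map_sum]
    refine Finset.sum_congr rfl (fun i' _ => ?_)
    rw [map_sum]

/-- LFX: `X` is liftable. -/
theorem lfx (hFPX : FpxStmt) (hA : LfaStmt) (hB : LfbStmt) : LfxStmt := by
  intro R Γ W I Ω _ _ _ _ _ _ _ _ D BX p hX
  obtain ⟨h1, h2⟩ := hFPX R Γ W I Ω D BX hX p
  exact ⟨hA R Γ W I Ω (I × Ω → Γ) D BX hX BX p h1, hB R Γ W I Ω (I × Ω → Γ) D BX hX BX p h1,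
    hB R Γ W I Ω Γ D BX hX (regB R Γ) p h2⟩

end Pool.Agent.PFD.D2b.H49
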