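import Pool.Agent.PFD.Chain2

/-!
# Squad PFD, row KCT (helper49): the dimension of the centre of the twisted group algebra
-/

set_option autoImplicit false

open scoped BigOperators

namespace Pool.Agent.PFD.H49k

open Pool.Agent.PFD
open Pool.Agent.PFC (Ctf)

section

variable {F G A : Type} [Field F] [Group G] [Fintype G] [Ring A] [Algebra F A]
  (B : Module.Basis G F A) (c : G → G → Fˣ)

/-- the factor of the conjugation -/
def th (x g : G) : Fˣ := c x g * (c (x * g * x⁻¹) x)⁻¹

variable (hB : ∀ g h, B g * B h = (c g h : F) • B (g * h))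
include hB

omit [Fintype G] in
theorem conj_rule (x g : G) :
    B x * B g = (th c x g : F) • (B (x * g * x⁻¹) * B x) := by
  rw [hB, hB, smul_smul]
  have h1 : x * g * x⁻¹ * x = x * g := by group
  rw [h1]
  congr 1
  unfold th
  rw [Units.val_mul, mul_assoc, Units.inv_mul, mul_one]

omit [Fintype G] hB in
theorem B_ne (g : G) : B g ≠ 0 := B.ne_zero g

omit [Fintype G] in
theorem th_mul (x y g : G) : th c (x * y) g = th c x (y * g * y⁻¹) * th c y g := by
  have h1 : B (x * y) = ((c x y)⁻¹ : Fˣ).val • (B x * B y) := by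
    rw [hB, smul_smul, Units.inv_mul, one_smul]
  have h2 := conj_rule B c hB (x * y) g
  have e : x * y * g * (x * y)⁻¹ = x * (y * g * y⁻¹) * x⁻¹ := by group
  have h3 : B (x * y) * B g = ((th c x (y * g * y⁻¹) * th c y g : Fˣ) : F) •
      (B (x * y * g * (x * y)⁻¹) * B (x * y)) := by
    calc B (x * y) * B g = ((c x y)⁻¹ : Fˣ).val • (B x * (B y * B g)) := by
          rw [h1, smul_mul_assoc, mul_assoc]
      _ = ((c x y)⁻¹ : Fˣ).val • (B x * ((th c y g : F) • (B (y * g * y⁻¹) * B y))) := by
          rw [conj_rule B c hB y g]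
      _ = ((c x y)⁻¹ : Fˣ).val • ((th c y g : F) • ((B x * B (y * g * y⁻¹)) * B y)) := by
          rw [mul_smul_comm, ← mul_assoc (B x)]
      _ = ((c x y)⁻¹ : Fˣ).val • ((th c y g : F) • (((th c x (y * g * y⁻¹) : F) •
            (B (x * (y * g * y⁻¹) * x⁻¹) * B x)) * B y)) := by
          rw [conj_rule B c hB x (y * g * y⁻¹)]
      _ = _ := by
          rw [e, h1, smul_mul_assoc, mul_smul_comm, mul_assoc (B _) (B x) (B y), Units.val_mul,
            smul_smul, smul_smul, smul_smul]
          congr 1
          ring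
  rw [h2, hB, smul_smul, smul_smul] at h3
  have h4 := smul_left_injective F (B_ne B (x * y * g * (x * y)⁻¹ * (x * y))) h3
  have h5 : (th c (x * y) g : F) = ((th c x (y * g * y⁻¹) * th c y g : Fˣ) : F) :=
    mul_right_cancel₀ (Units.ne_zero _) h4
  exact Units.ext h5

omit [Fintype G] [Ring A] [Algebra F A] hB in
theorem th_comm (hc : ∀ g h, g * h = h * g → c g h = c h g) (x g : G) (h : x * g = g * x) :
    th c x g = 1 := by
  unfold th
  have h1 : x * g * x⁻¹ = g := by rw [h]; group
  rw [h1, hc x g h, mul_inv_cancel]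

theorem center_iff (a : A) : a ∈ Subalgebra.center F A ↔
    ∀ x g, B.repr a (x * g * x⁻¹) = (th c x g : F) * B.repr a g := by
  classical
  have hsum : a = ∑ g, B.repr a g • B g := (B.sum_repr a).symm
  have key : ∀ x, B x * a - a * B x = ∑ g, (((th c x g : F) * B.repr a g -
      B.repr a (x * g * x⁻¹)) * (c (x * g * x⁻¹) x : F)) • B (x * g) := by
    intro x
    have e1 : B x * a = ∑ g, ((th c x g : F) * B.repr a g * (c (x * g * x⁻¹) x : F)) •
        B (x * g) := by
      conv_lhs => rw [hsum]
      rw [Finset.mul_sum]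
      refine Finset.sum_congr rfl fun g _ => ?_
      rw [mul_smul_comm, conj_rule B c hB, hB, smul_smul, smul_smul]
      have h1 : x * g * x⁻¹ * x = x * g := by group
      rw [h1]
      congr 1
      ring
    have e2 : a * B x = ∑ g, (B.repr a (x * g * x⁻¹) * (c (x * g * x⁻¹) x : F)) •
        B (x * g) := by
      conv_lhs => rw [hsum]
      rw [Finset.sum_mul]
      refine (Fintype.sum_equiv (MulAut.conj x).toEquiv _ _ fun g => ?_).symm
      show _ = B.repr a (x * g * x⁻¹) • B (x * g * x⁻¹) * B x
      rw [smul_mul_assoc, hB, smul_smul]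
      have h1 : x * g * x⁻¹ * x = x * g := by group
      rw [h1]
    rw [e1, e2, ← Finset.sum_sub_distrib]
    refine Finset.sum_congr rfl fun g _ => ?_
    rw [← sub_smul]
    congr 1
    ring
  rw [Subalgebra.mem_center_iff]
  constructor
  · intro h x g
    have h1 : B x * a - a * B x = 0 := by rw [h, sub_self]
    rw [key] at h1
    have h2 := congrArg (fun y => B.repr y (x * g)) h1
    simp only [map_sum, map_smul, map_zero, Finsupp.coe_zero, Pi.zero_apply,
      Finsupp.finsetSum_apply, Finsupp.smul_apply, Module.Basis.repr_self, smul_eq_mul] at h2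
    rw [Finset.sum_eq_single g] at h2
    · rw [Finsupp.single_eq_same, mul_one] at h2
      have h3 := (mul_eq_zero.1 h2).resolve_right (Units.ne_zero _)
      exact (sub_eq_zero.1 h3).symm
    · intro k _ hk
      rw [Finsupp.single_eq_of_ne, mul_zero]
      intro h4
      exact hk (mul_left_cancel h4).symm
    · intro hk
      exact absurd (Finset.mem_univ g) hk
  · intro h
    have h1 : ∀ x, B x * a = a * B x := by
      intro x
      rw [← sub_eq_zero, key]
      refine Finset.sum_eq_zero fun g _ => ?_
      rw [h x g, sub_self, zero_mul, zero_smul]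
    intro y
    have hy : y = ∑ g, B.repr y g • B g := (B.sum_repr y).symm
    rw [hy, Finset.sum_mul, Finset.mul_sum]
    refine Finset.sum_congr rfl fun g _ => ?_
    rw [smul_mul_assoc, mul_smul_comm, h1]

theorem finrank_center (hc : ∀ g h, g * h = h * g → c g h = c h g) :
    Module.finrank F (Subalgebra.center F A) = Nat.card (ConjClasses G) := by
  classical
  let rp : ConjClasses G → G := fun k => Quotient.out k
  have hrp : ∀ k, ConjClasses.mk (rp k) = k := fun k => Quotient.out_eq k
  have hx : ∀ g : G, ∃ x : G, x * rp (ConjClasses.mk g) * x⁻¹ = g := by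
    intro g
    have h1 : IsConj (rp (ConjClasses.mk g)) g := ConjClasses.mk_eq_mk_iff_isConj.1 (hrp _)
    exact isConj_iff.1 h1
  choose cx hcx using hx
  let Ψ : Subalgebra.center F A →ₗ[F] (ConjClasses G → F) :=
    { toFun := fun a k => B.repr (a : A) (rp k)
      map_add' := fun a b => by
        funext k
        show B.repr ((a : A) + b) (rp k) = _
        rw [map_add]
        rfl
      map_smul' := fun r a => by
        funext k
        show B.repr (r • (a : A)) (rp k) = _
        rw [map_smul]
        rfl }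
  have hΨ : ∀ a k, Ψ a k = B.repr (a : A) (rp k) := fun a k => rfl
  have hinj : Function.Injective Ψ := by
    intro a b hab
    apply Subtype.ext
    apply B.repr.injective
    ext g
    have ha := (center_iff B c hB a).1 a.2 (cx g) (rp (ConjClasses.mk g))
    have hb := (center_iff B c hB b).1 b.2 (cx g) (rp (ConjClasses.mk g))
    rw [hcx] at ha hb
    have h1 := congrFun hab (ConjClasses.mk g)
    rw [hΨ, hΨ] at h1
    rw [ha, hb, h1]
  have hsurj : Function.Surjective Ψ := by
    intro v
    let f : G → F := fun g => v (ConjClasses.mk g) * (th c (cx g) (rp (ConjClasses.mk g)) : F)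
    have hf : ∀ g, f g = v (ConjClasses.mk g) *
      (th c (cx g) (rp (ConjClasses.mk g)) : F) := fun g => rfl
    -- independence of the choice
    have hind : ∀ x y k, x * k * x⁻¹ = y * k * y⁻¹ → th c x k = th c y k := by
      intro x y k h
      have h1 : (x⁻¹ * y) * k = k * (x⁻¹ * y) := by
        have h2 : x⁻¹ * (x * k * x⁻¹) * y = x⁻¹ * (y * k * y⁻¹) * y := by rw [h]
        have h3 : x⁻¹ * (x * k * x⁻¹) * y = k * (x⁻¹ * y) := by group
        have h4 : x⁻¹ * (y * k * y⁻¹) * y = (x⁻¹ * y) * k := by group
        rw [← h3, ← h4, h2]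
      have h5 := th_mul B c hB x (x⁻¹ * y) k
      rw [mul_inv_cancel_left, th_comm c hc _ _ h1, mul_one] at h5
      have h6 : x⁻¹ * y * k * (x⁻¹ * y)⁻¹ = k := by rw [h1]; group
      rw [h6] at h5
      exact h5.symm
    have hft : ∀ x g, f (x * g * x⁻¹) = (th c x g : F) * f g := by
      intro x g
      have h1 : ConjClasses.mk (x * g * x⁻¹) = ConjClasses.mk g :=
        ConjClasses.mk_eq_mk_iff_isConj.2 (isConj_iff.2 ⟨x, rfl⟩).symm
      rw [hf, hf, h1]
      have h2 := hcx (x * g * x⁻¹)
      rw [h1] at h2
      have h3 := hcx g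
      have h4 : cx (x * g * x⁻¹) * rp (ConjClasses.mk g) * (cx (x * g * x⁻¹))⁻¹ =
          (x * cx g) * rp (ConjClasses.mk g) * (x * cx g)⁻¹ := by
        rw [h2]
        conv_lhs => rw [← h3]
        group
      rw [hind _ _ _ h4, th_mul B c hB, h3, Units.val_mul]
      ring
    let a : A := B.repr.symm (Finsupp.equivFunOnFinite.symm f)
    have ha : ∀ g, B.repr a g = f g := by
      intro g
      show B.repr (B.repr.symm _) g = _
      rw [LinearEquiv.apply_symm_apply]
      rfl
    have hac : a ∈ Subalgebra.center F A := by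
      rw [center_iff B c hB]
      intro x g
      rw [ha, ha, hft]
    refine ⟨⟨a, hac⟩, ?_⟩
    funext k
    rw [hΨ]
    show B.repr a (rp k) = v k
    rw [ha, hf, hrp]
    have h1 : cx (rp k) * rp k * (cx (rp k))⁻¹ = 1 * rp k * 1⁻¹ := by
      have h2 := hcx (rp k)
      rw [hrp] at h2
      rw [h2]
      group
    rw [hind _ _ _ h1, th_comm c hc 1 _ (by rw [one_mul, mul_one]), Units.val_one, mul_one]
  have : Fintype (ConjClasses G) := Fintype.ofFinite _
  rw [LinearEquiv.finrank_eq (LinearEquiv.ofBijective Ψ ⟨hinj, hsurj⟩),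
    Module.finrank_fintype_fun_eq_card, Nat.card_eq_fintype_card]

end

section

variable {F V E : Type} [Field F] [CommGroup V] [Fintype V] [Group E] [Fintype E]
  (φ : E →* MulAut V) (z : Coc F E)

/-- the coordinates in the basis `sn v e` -/
noncomputable def eqv : CP (D0 φ z) ≃ₗ[F] (V ⋊[φ] E → F) where
  toFun := fun a g => (a.f g.right).coeff g.left
  invFun := fun v =>
    ⟨fun e => MonoidAlgebra.ofCoeff (Finsupp.equivFunOnFinite.symm fun u => v ⟨u, e⟩)⟩
  map_add' := fun a b => rfl
  map_smul' := fun r a => rfl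
  left_inv := fun a => by
    apply CP.ext
    funext e
    apply MonoidAlgebra.coeff_injective
    ext u
    rfl
  right_inv := fun v => by
    funext g
    rfl

theorem eqv_apply (a : CP (D0 φ z)) (g : V ⋊[φ] E) :
    eqv φ z a g = (a.f g.right).coeff g.left := rfl

variable [Finite (V ⋊[φ] E)]

/-- the basis `sn v e` -/
noncomputable def bas : Module.Basis (V ⋊[φ] E) F (CP (D0 φ z)) :=
  Module.Basis.ofEquivFun (eqv φ z)

theorem bas_apply (g : V ⋊[φ] E) :
    bas φ z g = CP.sn (D0 φ z) (MonoidAlgebra.single g.left 1) g.right := by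
  classical
  unfold bas
  rw [Module.Basis.coe_ofEquivFun]
  apply (eqv φ z).injective
  rw [LinearEquiv.apply_symm_apply]
  funext h
  rw [eqv_apply, CP.sn_f, Pi.single_apply]
  by_cases h1 : h.right = g.right
  · rw [if_pos h1, MonoidAlgebra.coeff_single, Finsupp.single_apply]
    by_cases h2 : g.left = h.left
    · rw [if_pos h2, if_pos (SemidirectProduct.ext h2.symm h1)]
    · rw [if_neg h2, if_neg]
      intro h3
      exact h2 (by rw [h3])
  · rw [if_neg h1, if_neg]
    · rfl
    · intro h3
      exact h1 (by rw [h3])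

theorem bas_mul (g h : V ⋊[φ] E) :
    bas φ z g * bas φ z h = (z.c g.right h.right : F) • bas φ z (g * h) := by
  rw [bas_apply, bas_apply, bas_apply, CP.sn_mul_sn]
  show _ • CP.sn (D0 φ z) (MonoidAlgebra.single g.left 1 *
    acV F φ g.right (MonoidAlgebra.single h.left 1)) (g.right * h.right) = _
  rw [acV_single, MonoidAlgebra.single_mul_single, mul_one]
  rfl

end

/-- KCT: the dimension of the centre of the twisted group algebra. -/
theorem kct (h : CybStmt) : KctStmt := by
  intro F V E _ _ _ _ _ ℓ φ W z hc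
  have : Fintype (V ⋊[φ] E) := Fintype.ofEquiv _ SemidirectProduct.equivProd.symm
  refine finrank_center (bas φ z) (fun g h => z.c g.right h.right) (bas_mul φ z) ?_
  intro g k hgk
  refine h F V E ℓ φ W z hc g.right k.right ?_
  have h1 := congrArg SemidirectProduct.right hgk
  rwa [SemidirectProduct.mul_right, SemidirectProduct.mul_right] at h1

end Pool.Agent.PFD.H49k
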